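import Mathlib
import Pool.Agent.R135.ChromSym

/-!
# MP_9dade1_co, Q1: the symmetric decomposition of the chromatic numerator has the stated signs

For every finite simple graph `G` on `d ≥ 1` vertices, write
`∑ χ_G(n) zⁿ = h_G(z) / (1-z)^{d+1}` and `h_G = a + z b` with `a` `d`-symmetric and `b`
`(d-1)`-symmetric.  Then `b` has nonnegative and `a` has nonpositive coefficients.

Idea of the proof: deletion-contraction gives `h_G = h_{G-e} - (1-z) h_{G/e}`, hence
`a_G = a_{G-e} - h_{G/e}(z) - z^d h_{G/e}(1/z)`; the numerator of `G/e` is nonnegative and the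
edgeless graph has `a = 0`.  So `a ≤ 0`; and `b` is then nonnegative because `h_G = a + z b` is.
-/

open Finset Polynomial

namespace Pool.Agent.Results.MP_9dade1_co.SymmetricDecomposition

universe u

/-- `χ_G(n)`: the number of maps `V → {1, ..., n}` taking distinct values on adjacent vertices. -/
noncomputable def chi {V : Type u} (G : SimpleGraph V) (n : ℕ) : ℕ :=
  Nat.card {φ : V → Fin n // ∀ u v, G.Adj u v → φ u ≠ φ v}

/-- `h` is the chromatic numerator of `G`: `(∑_{n ≥ 0} χ_G(n) zⁿ) (1-z)^{d+1} = h(z)`,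
`d = |V|`, as formal power series. -/
def IsNumerator {V : Type u} [Fintype V] (G : SimpleGraph V) (h : ℤ[X]) : Prop :=
  PowerSeries.mk (fun n => (chi G n : ℤ)) *
    (1 - (PowerSeries.X : PowerSeries ℤ)) ^ (Fintype.card V + 1) = (h : PowerSeries ℤ)

/-- `p` is `m`-symmetric: `deg p ≤ m` and `p_i = p_{m-i}` for `0 ≤ i ≤ m`. -/
def MSymm (m : ℕ) (p : ℤ[X]) : Prop :=
  p.natDegree ≤ m ∧ ∀ i ≤ m, p.coeff i = p.coeff (m - i)

open Pool.Agent.R135.ChromSym (beta beta_zero beta_succ exists_num main_ineq IsNum)

lemma beta_symm (d : ℕ) (h : ℤ[X]) : ∀ i ≤ d + 1, beta d h (d + 1 - i) = beta d h i := by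
  intro i
  induction i with
  | zero =>
    intro _
    rw [beta_zero, Nat.sub_zero]
    unfold beta
    rw [Finset.sum_sub_distrib, sub_eq_zero]
    exact Finset.sum_range_reflect (fun j => h.coeff j) (d + 1)
  | succ i ih =>
    intro hi
    have h1 := ih (by omega)
    have h2 : d + 1 - i = (d - i) + 1 := by omega
    rw [h2, beta_succ] at h1
    have h3 : d - (d - i) = i := by omega
    rw [h3] at h1
    have h4 : d + 1 - (i + 1) = d - i := by omega
    rw [h4, beta_succ]
    linarith

/-- the `a`-part -/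
noncomputable def aPart (d : ℕ) (h : ℤ[X]) : ℤ[X] :=
  ∑ i ∈ range (d + 1), C (h.coeff i - beta d h i) * X ^ i

/-- the `b`-part -/
noncomputable def bPart (d : ℕ) (h : ℤ[X]) : ℤ[X] :=
  ∑ i ∈ range d, C (beta d h (i + 1)) * X ^ i

lemma sum_coeff (n : ℕ) (f : ℕ → ℤ) (i : ℕ) :
    (∑ j ∈ range n, C (f j) * X ^ j : ℤ[X]).coeff i = if i < n then f i else 0 := by
  rw [Polynomial.finsetSum_coeff]
  simp only [coeff_C_mul, coeff_X_pow, mul_ite, mul_one, mul_zero]
  rw [Finset.sum_ite_eq]
  simp

lemma aPart_coeff (d : ℕ) (h : ℤ[X]) (i : ℕ) :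
    (aPart d h).coeff i = if i < d + 1 then h.coeff i - beta d h i else 0 := by
  unfold aPart
  exact sum_coeff _ (fun i => h.coeff i - beta d h i) _

lemma bPart_coeff (d : ℕ) (h : ℤ[X]) (i : ℕ) :
    (bPart d h).coeff i = if i < d then beta d h (i + 1) else 0 := by
  unfold bPart
  exact sum_coeff _ (fun i => beta d h (i + 1)) _

lemma decomposition (d : ℕ) (hd : 1 ≤ d) (h : ℤ[X]) (hdeg : h.natDegree ≤ d) :
    MSymm d (aPart d h) ∧ MSymm (d - 1) (bPart d h) ∧ h = aPart d h + X * bPart d h := by
  refine ⟨⟨?_, ?_⟩, ⟨?_, ?_⟩, ?_⟩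
  · rw [Polynomial.natDegree_le_iff_coeff_eq_zero]
    intro i hi
    rw [aPart_coeff, if_neg (by omega)]
  · intro i hi
    rw [aPart_coeff, aPart_coeff, if_pos (by omega), if_pos (by omega)]
    rcases Nat.lt_or_ge i d with h1 | h1
    · have h2 := beta_symm d h (i + 1) (by omega)
      have h3 : d + 1 - (i + 1) = d - i := by omega
      rw [h3] at h2
      rw [h2, beta_succ]
      ring
    · have h2 : i = d := by omega
      subst h2
      rw [Nat.sub_self, beta_zero]
      have h3 := beta_symm i h 1 (by omega)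
      rw [Nat.add_sub_cancel] at h3
      rw [h3, show (1 : ℕ) = 0 + 1 from rfl, beta_succ, beta_zero, Nat.sub_zero]
      ring
  · rw [Polynomial.natDegree_le_iff_coeff_eq_zero]
    intro i hi
    rw [bPart_coeff, if_neg (by omega)]
  · intro i hi
    rw [bPart_coeff, bPart_coeff, if_pos (by omega), if_pos (by omega)]
    have h2 := beta_symm d h (i + 1) (by omega)
    rw [← h2]
    congr 1
    omega
  · ext i
    rw [coeff_add, aPart_coeff]
    cases i with
    | zero =>
      rw [if_pos (by omega), beta_zero]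
      simp
    | succ i =>
      rw [coeff_X_mul, bPart_coeff]
      by_cases hi : i < d
      · rw [if_pos (by omega), if_pos hi]
        ring
      · rw [if_neg (by omega), if_neg hi]
        rw [Polynomial.coeff_eq_zero_of_natDegree_lt (by omega)]
        ring

lemma decomposition_unique (d : ℕ) (hd : 1 ≤ d) (h a b : ℤ[X]) (ha : MSymm d a)
    (hb : MSymm (d - 1) b) (hab : h = a + X * b) :
    a = aPart d h ∧ b = bPart d h := by
  have h0 : h.coeff 0 = a.coeff 0 := by rw [hab]; simp
  have hs : ∀ i, h.coeff (i + 1) = a.coeff (i + 1) + b.coeff i := by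
    intro i; rw [hab, coeff_add, coeff_X_mul]
  have hbi : ∀ i < d, b.coeff i = beta d h (i + 1) := by
    intro i
    induction i with
    | zero =>
      intro _
      obtain ⟨e, rfl⟩ : ∃ e, d = e + 1 := ⟨d - 1, by omega⟩
      rw [beta_succ, beta_zero, Nat.sub_zero, hs, h0, ha.2 0 (by omega), hb.2 0 (by omega)]
      simp
    | succ i ih =>
      intro hi
      rw [beta_succ, ← ih (by omega), hs i]
      obtain ⟨e, he⟩ : ∃ e, d - (i + 1) = e + 1 := ⟨d - (i + 1) - 1, by omega⟩
      rw [he, hs e]
      have h1 := ha.2 (i + 1) (by omega)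
      rw [he] at h1
      have h2 := hb.2 (i + 1) (by omega)
      have h3 : d - 1 - (i + 1) = e := by omega
      rw [h3] at h2
      rw [h1, h2]
      ring
  have hai : ∀ i < d + 1, a.coeff i = h.coeff i - beta d h i := by
    intro i hi
    cases i with
    | zero => rw [beta_zero, h0]; ring
    | succ i =>
      rw [hs, hbi i (by omega)]
      ring
  constructor
  · ext i
    rw [aPart_coeff]
    by_cases hi : i < d + 1
    · rw [if_pos hi]; exact hai i hi
    · rw [if_neg hi]
      apply Polynomial.coeff_eq_zero_of_natDegree_lt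
      have := ha.1
      omega
  · ext i
    rw [bPart_coeff]
    by_cases hi : i < d
    · rw [if_pos hi]; exact hbi i hi
    · rw [if_neg hi]
      apply Polynomial.coeff_eq_zero_of_natDegree_lt
      have := hb.1
      omega

/-- **Q1 of MP_9dade1_co is true.**  Every finite simple graph `G` on `d ≥ 1` vertices has a
unique chromatic numerator `h`; `h` has a unique decomposition `h = a + z b` with `a`
`d`-symmetric and `b` `(d-1)`-symmetric; and every coefficient of `a` is nonpositive and every
coefficient of `b` is nonnegative. -/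
theorem result (V : Type u) [Fintype V] (G : SimpleGraph V) (hV : 1 ≤ Fintype.card V) :
    ∃ h : ℤ[X], IsNumerator G h ∧ (∀ h' : ℤ[X], IsNumerator G h' → h' = h) ∧
      ∃ a b : ℤ[X],
        (MSymm (Fintype.card V) a ∧ MSymm (Fintype.card V - 1) b ∧ h = a + X * b) ∧
        (∀ a' b' : ℤ[X], MSymm (Fintype.card V) a' → MSymm (Fintype.card V - 1) b' →
          h = a' + X * b' → a' = a ∧ b' = b) ∧
        (∀ i, a.coeff i ≤ 0) ∧ (∀ i, 0 ≤ b.coeff i) := by
  obtain ⟨h, hh, hdeg, hzero, hpos⟩ := exists_num G hV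
  have hineq := main_ineq hV _ G rfl h hh
  refine ⟨h, hh, fun h' hh' => IsNum.unique (G := G) hh' hh, aPart _ h, bPart _ h,
    decomposition _ hV h hdeg, ?_, ?_, ?_⟩
  · intro a' b' ha' hb' hab
    exact decomposition_unique _ hV h a' b' ha' hb' hab
  · intro i
    rw [aPart_coeff]
    split_ifs with hi
    · have := hineq i (by omega)
      linarith
    · exact le_refl _
  · intro i
    rw [bPart_coeff]
    split_ifs with hi
    · exact le_trans (hpos (i + 1)) (hineq (i + 1) (by omega))
    · exact le_refl _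

end Pool.Agent.Results.MP_9dade1_co.SymmetricDecomposition
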